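import Pool.Agent.N912.PY.Stm

set_option autoImplicit false

/-! Project PY (helper912), part CNT: the number of pairs (helper300). -/

namespace Pool.Agent.N300.PY

open Finset Pool.Agent.N912.PY

theorem cnt : S_CNT := by
  intro V R a₀ b₀ hV hb hR
  set D : ℕ := 2 * V * (b₀ + 1) with hD
  have hD0 : 0 < D := by positivity
  have hDr : (0 : ℝ) < D := by exact_mod_cast hD0
  refine ⟨1 / (4 * (D : ℝ) ^ 2), by positivity, 2 * D + 2 * (1 + V * (b₀ * (1 + R))),
    fun x hx => ?_⟩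
  obtain ⟨Y, hY⟩ : ∃ Y, Y = x / D := ⟨_, rfl⟩
  have hY1 : D * Y ≤ x := by
    rw [hY]
    exact Nat.mul_div_le x D
  have hY2 : x < D * Y + D := by
    rw [hY]
    exact Nat.lt_mul_div_succ x hD0
  have hmap : (((range Y) ×ˢ (range Y)).image fun q : ℕ × ℕ =>
      ((1 + V * (R * (b₀ * (1 + R + q.2) + q.1) + R + q.2), 1 + V * (b₀ * (1 + R + q.2) + q.1)) :
        ℕ × ℕ)) ⊆ sec R a₀ b₀ V x := by
    intro z hz
    rw [mem_image] at hz
    obtain ⟨⟨i, j⟩, hij, rfl⟩ := hz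
    simp only [mem_product, mem_range] at hij
    obtain ⟨hi, hj⟩ := hij
    obtain ⟨s, hs⟩ : ∃ s, s = b₀ * (1 + R + j) + i := ⟨_, rfl⟩
    have hn : 1 + V * s ≤ x := by
      have h1 : s ≤ b₀ * (1 + R) + (b₀ + 1) * Y := by
        rw [hs]
        have : b₀ * j ≤ b₀ * Y := Nat.mul_le_mul_left _ hj.le
        nlinarith
      have h2 : V * s ≤ V * (b₀ * (1 + R)) + V * (b₀ + 1) * Y := by
        calc V * s ≤ V * (b₀ * (1 + R) + (b₀ + 1) * Y) := Nat.mul_le_mul_left _ h1
          _ = _ := by ring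
      have h3 : 2 * (V * (b₀ + 1) * Y) = D * Y := by
        rw [hD]
        ring
      omega
    have hm : b₀ * (1 + V * (R * s + R + j)) ≤ a₀ * (1 + V * s) := by
      have h1 : (R * b₀ + 1) * (1 + V * s) ≤ a₀ * (1 + V * s) := Nat.mul_le_mul_right _ hR
      have h2 : V * (b₀ * (1 + R + j)) ≤ V * s := Nat.mul_le_mul_left _ (by omega)
      have h3 : b₀ * 1 ≤ b₀ * V := Nat.mul_le_mul_left _ hV
      nlinarith
    unfold sec
    rw [mem_filter, mem_product, mem_Icc, mem_Icc]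
    simp only
    rw [← hs]
    refine ⟨⟨⟨by omega, ?_⟩, by omega, hn⟩, ?_, hm, ?_, ?_⟩
    · calc 1 + V * (R * s + R + j) ≤ b₀ * (1 + V * (R * s + R + j)) := Nat.le_mul_of_pos_left _ hb
        _ ≤ a₀ * (1 + V * s) := hm
        _ ≤ a₀ * x := Nat.mul_le_mul_left _ hn
    · have h3 : R * 1 ≤ R * V := Nat.mul_le_mul_left _ hV
      nlinarith
    · have h4 : ∀ t, 1 + V * t ≡ 1 [MOD V] := fun t => by
        unfold Nat.ModEq
        rw [Nat.add_mul_mod_self_left]
      exact (h4 _).trans (h4 _).symm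
    · exact Nat.coprime_add_mul_left_left 1 V _ |>.2 (Nat.coprime_one_left V)
  have hcard := card_le_card hmap
  rw [card_image_of_injective, card_product, card_range] at hcard
  · have h1 : (x : ℝ) < D * Y + D := by exact_mod_cast hY2
    have h2 : (2 : ℝ) * D ≤ x := by
      have : 2 * D ≤ x := by omega
      exact_mod_cast this
    have h3 : (x : ℝ) / (2 * D) ≤ Y := by
      rw [div_le_iff₀ (by positivity)]
      nlinarith
    have h4 : ((Y * Y : ℕ) : ℝ) ≤ ((sec R a₀ b₀ V x).card : ℝ) := by exact_mod_cast hcard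
    calc 1 / (4 * (D : ℝ) ^ 2) * (x : ℝ) ^ 2 = ((x : ℝ) / (2 * D)) ^ 2 := by
          field_simp
          ring
      _ ≤ (Y : ℝ) ^ 2 := by gcongr
      _ = ((Y * Y : ℕ) : ℝ) := by push_cast; ring
      _ ≤ _ := h4
  · rintro ⟨i, j⟩ ⟨i', j'⟩ h
    simp only [Prod.mk.injEq] at h
    obtain ⟨h1, h2⟩ := h
    have e2 : b₀ * (1 + R + j) + i = b₀ * (1 + R + j') + i' :=
      Nat.eq_of_mul_eq_mul_left hV (by omega)
    rw [e2] at h1
    have e1 := Nat.eq_of_mul_eq_mul_left hV (Nat.add_left_cancel h1)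
    have e3 : j = j' := by omega
    subst e3
    have e4 : i = i' := by omega
    rw [e4]

end Pool.Agent.N300.PY
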